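import Pool.Agent.Y8.FB.Main

/-!
Singular points at one time: only the dissipation before that time matters (helper8).
-/

set_option autoImplicit false

open MeasureTheory Set Metric Filter Topology
open scoped ContDiff NNReal ENNReal

namespace Pool.Agent.Y8.FB

open H459R3.NS W221.NS Pool.Agent.Y8
open Pool.Agent.Y496.NS.TU (enst_ion enstrophy_sm)

/-- singular points at one time, viscosity one -/
def S_PST1 : Prop := ∃ C δ₀ : ℝ, 0 < C ∧ 0 < δ₀ ∧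
  ∀ (T E D : ℝ) (G : Set ℝ) (u : ℝ → V → V) (p : ℝ → V → ℝ), Turb 1 T E D G u p →
    ∀ r t₀ : ℝ, 0 < r → (1 + E ^ 2) * r ≤ δ₀ → r ^ 2 < t₀ → t₀ < T → ∀ S : Finset V,
      (∀ x ∈ S, x ∈ cube ∧ SingPt G u t₀ x) → (∀ x ∈ S, ∀ y ∈ S, x ≠ y → r ≤ ‖x - y‖) →
        S.card * r ≤ C * ∫ t in Ioo (t₀ - r ^ 2) t₀, enstrophy (u t)

/-- singular points at one time -/
def S_PST : Prop := ∃ C δ₀ : ℝ, 0 < C ∧ 0 < δ₀ ∧
  ∀ (ν T E D : ℝ) (G : Set ℝ) (u : ℝ → V → V) (p : ℝ → V → ℝ), 0 < ν → Turb ν T E D G u p →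
    ∀ r t₀ : ℝ, 0 < r → (1 + (E / ν) ^ 2) * r ≤ δ₀ → r ^ 2 < ν * t₀ → t₀ < T → ∀ S : Finset V,
      (∀ x ∈ S, x ∈ cube ∧ SingPt G u t₀ x) → (∀ x ∈ S, ∀ y ∈ S, x ≠ y → r ≤ ‖x - y‖) →
        S.card * r ≤ C / ν * ∫ t in Ioo (t₀ - r ^ 2 / ν) t₀, enstrophy (u t)

theorem t_PST1 (hW : S_WIN) (hS : S_SLI) : S_PST1 := by
  obtain ⟨CW, hCW, hW⟩ := hW
  obtain ⟨CS, δS, hCS, hδS, hSl⟩ := hS
  refine ⟨CW * CS, min δS 1, by positivity, by positivity, ?_⟩
  intro T E D G u p h r t₀ hr hrδ hrt htT S hS hsep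
  classical
  have hrS : (1 + E ^ 2) * r ≤ δS := hrδ.trans (min_le_left _ _)
  have hrE : (1 + E ^ 2) * r ≤ 1 := hrδ.trans (min_le_right _ _)
  have hr1 : r ≤ 1 := by nlinarith [mul_nonneg (sq_nonneg E) hr.le]
  have hr2 : 0 < r ^ 2 := by positivity
  set S' : Finset (ℝ × V) := S.image (fun x => (t₀, x)) with hS'
  have hcard : S'.card = S.card := Finset.card_image_of_injective S fun x y hxy =>
    (Prod.mk.inj hxy).2
  have hMS : MovSep 1 T r G u S' := by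
    intro z hz w hw hzw _ X _ h1
    obtain ⟨x, hx, rfl⟩ := Finset.mem_image.1 hz
    obtain ⟨y, hy, rfl⟩ := Finset.mem_image.1 hw
    have h3 := hsep x hx y hy (fun e => hzw (by rw [e]))
    by_contra hc
    rw [not_le] at hc
    simp only at h1 hc
    have h4 : ‖x - y‖ ≤ ‖X t₀ - y‖ + ‖X t₀ - x‖ := by
      calc ‖x - y‖ = ‖(X t₀ - y) - (X t₀ - x)‖ := by rw [sub_sub_sub_cancel_left]
        _ ≤ _ := norm_sub_le _ _
    linarith
  obtain ⟨hsl1, -, -⟩ := hSl T E D G u p h r hr hrS S' (by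
    intro z hz
    obtain ⟨x, hx, rfl⟩ := Finset.mem_image.1 hz
    exact ⟨by simp only; linarith, htT, (hS x hx).1⟩)
  have henT : IntegrableOn (fun t => enstrophy (u t)) (Ioo 0 T) := enst_ion h le_rfl le_rfl
  obtain ⟨g, hg⟩ : ∃ g : ℝ → ℝ, g = (Ioo 0 T).indicator (fun t => enstrophy (u t)) := ⟨_, rfl⟩
  have hgi : Integrable g := by
    rw [hg]
    exact (integrable_indicator_iff measurableSet_Ioo).2 henT
  have hFc : Continuous fun x : ℝ => ∫ τ in (0 : ℝ)..x, g τ :=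
    intervalIntegral.continuous_primitive (fun a b => hgi.intervalIntegrable) 0
  have hFe : ∀ a b : ℝ, 0 ≤ a → a ≤ b → b ≤ T → ∫ t in Ioo a b, enstrophy (u t) =
      (∫ τ in (0 : ℝ)..b, g τ) - ∫ τ in (0 : ℝ)..a, g τ := by
    intro a b ha hab hb
    rw [intervalIntegral.integral_interval_sub_left hgi.intervalIntegrable
      hgi.intervalIntegrable, intervalIntegral.integral_of_le hab, integral_Ioc_eq_integral_Ioo]
    refine setIntegral_congr_fun measurableSet_Ioo fun t ht => ?_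
    rw [hg]
    exact (indicator_of_mem (show t ∈ Ioo 0 T from
      ⟨ha.trans_lt ht.1, ht.2.trans_le hb⟩) (fun t => enstrophy (u t))).symm
  have key : ∀ η : ℝ, 0 < η → η < r ^ 2 / 16 → t₀ + η < T → (S.card : ℝ) * r ≤ CW * CS *
      ((∫ τ in (0 : ℝ)..(t₀ + η), g τ) - ∫ τ in (0 : ℝ)..(t₀ + η - r ^ 2), g τ) := by
    intro η hη hη1 hη2
    have h5 := hW T E D G u p h r (t₀ + η) hr hr1 (by linarith) hη2 S' S' subset_rfl hMS (by
      intro z hz
      obtain ⟨x, hx, rfl⟩ := Finset.mem_image.1 hz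
      exact ⟨⟨by simp only; linarith, by simp only; linarith⟩, (hS x hx).2⟩)
    rw [hcard] at h5
    have h6 : ∫⁻ t in Ioo (t₀ + η - r ^ 2) (t₀ + η) ∩ G, ∫⁻ x in Nbh 1 T r G u S' t,
        ENNReal.ofReal (gsq (u t) x) ≤
        ENNReal.ofReal (∫ t in Ioo (t₀ + η - r ^ 2) (t₀ + η), CS * enstrophy (u t)) := by
      have hI : IntegrableOn (fun t => CS * enstrophy (u t))
          (Ioo (t₀ + η - r ^ 2) (t₀ + η)) :=
        (enst_ion h (by linarith) hη2.le).const_mul CS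
      rw [ofReal_integral_eq_lintegral_ofReal hI
        (ae_of_all _ fun t => mul_nonneg hCS.le (enst_nn _))]
      refine (setLIntegral_mono' (measurableSet_Ioo.inter h.openG.measurableSet)
        (fun t ht => hsl1 t ht.2)).trans ?_
      exact lintegral_mono_set inter_subset_left
    have h7 := h5.trans (mul_le_mul_right h6 _)
    rw [← ENNReal.ofReal_mul hCW.le] at h7
    have h8 : 0 ≤ ∫ t in Ioo (t₀ + η - r ^ 2) (t₀ + η), CS * enstrophy (u t) :=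
      integral_nonneg fun t => mul_nonneg hCS.le (enst_nn _)
    have h9 := (ENNReal.ofReal_le_ofReal_iff (mul_nonneg hCW.le h8)).1 h7
    rw [integral_const_mul, hFe _ _ (by linarith) (by linarith) hη2.le] at h9
    linarith
  rw [hFe _ _ (by linarith) (by linarith) htT.le]
  have hlim : Tendsto (fun η : ℝ => CW * CS *
      ((∫ τ in (0 : ℝ)..(t₀ + η), g τ) - ∫ τ in (0 : ℝ)..(t₀ + η - r ^ 2), g τ)) (𝓝[>] 0)
      (𝓝 (CW * CS * ((∫ τ in (0 : ℝ)..t₀, g τ) - ∫ τ in (0 : ℝ)..(t₀ - r ^ 2), g τ))) := by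
    have hc : Continuous (fun η : ℝ => CW * CS *
      ((∫ τ in (0 : ℝ)..(t₀ + η), g τ) - ∫ τ in (0 : ℝ)..(t₀ + η - r ^ 2), g τ)) := by
      refine continuous_const.mul (Continuous.sub ?_ ?_)
      · exact hFc.comp (f := fun η : ℝ => t₀ + η) (by fun_prop)
      · exact hFc.comp (f := fun η : ℝ => t₀ + η - r ^ 2) (by fun_prop)
    have h1 := (hc.tendsto 0).mono_left (nhdsWithin_le_nhds (s := Ioi 0))
    simpa only [add_zero] using h1
  refine ge_of_tendsto hlim ?_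
  have hpos : 0 < min (r ^ 2 / 16) (T - t₀) := lt_min (by positivity) (by linarith)
  filter_upwards [Ioo_mem_nhdsGT hpos] with η hη
  exact key η hη.1 (hη.2.trans_le (min_le_left _ _))
    (by linarith [hη.2.trans_le (min_le_right (r ^ 2 / 16) (T - t₀))])

theorem t_PST : S_WSCAL → S_PST1 → S_PST := by
  intro hsc h1
  obtain ⟨C, δ₀, hC, hδ₀, h1⟩ := h1
  refine ⟨C, δ₀, hC, hδ₀, ?_⟩
  intro ν T E D G u p hν hT r t₀ hr hrδ hrt htT S hS hsep
  obtain ⟨hT', hsing⟩ := hsc ν T E D G u p hν hT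
  have key := h1 _ _ _ _ _ _ hT' r (ν * t₀) hr hrδ hrt (mul_lt_mul_of_pos_left htT hν) S
    (fun x hx => ⟨(hS x hx).1, hsing t₀ x (hS x hx).2⟩) hsep
  have hIoo : Ioo (ν * t₀ - r ^ 2) (ν * t₀) = {t : ℝ | t / ν ∈ Ioo (t₀ - r ^ 2 / ν) t₀} := by
    ext t
    simp only [mem_Ioo, mem_setOf_eq]
    rw [div_lt_iff₀ hν, mul_comm t₀ ν, lt_div_iff₀ hν, sub_mul, div_mul_cancel₀ _ hν.ne',
      mul_comm t₀ ν]
  have e : ∀ t : ℝ, enstrophy (fun x => ν⁻¹ • u (t / ν) x) =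
      (fun t' => ν⁻¹ ^ 2 * enstrophy (u t')) (t / ν) := by
    intro t
    exact enstrophy_sm _ _
  rw [hIoo] at key
  simp only [e] at key
  rw [chg hν measurableSet_Ioo (fun t' => ν⁻¹ ^ 2 * enstrophy (u t')), integral_const_mul] at key
  refine key.trans (le_of_eq ?_)
  field_simp

theorem p_pst : S_PST :=
  t_PST Pool.Agent.Y8.B.p_wscal (t_PST1 (t_WIN Pool.Agent.Y8.B.p_crit3 Pool.Agent.Y8.B.p_wfl)
    t_SLI)

end Pool.Agent.Y8.FB
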