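import Pool.Agent.Y8.FB.Main

/-!
The Minkowski contents of the singular set vanish (helper8).
-/

set_option autoImplicit false

open MeasureTheory Set Metric Filter Topology
open scoped ContDiff NNReal ENNReal

namespace Pool.Agent.Y8.FB

open H459R3.NS W221.NS Pool.Agent.Y8
open Pool.Agent.Y496.NS.TU (enst_ion)

/-- The Minkowski contents (of dimension `1` in the metric which moves with the fluid, of dimension
`25 / 23` in the parabolic metric) of the singular set in `[a, b] × cube` vanish. -/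
def S_CON : Prop := ∀ (ν T E D : ℝ) (G : Set ℝ) (u : ℝ → V → V) (p : ℝ → V → ℝ), 0 < ν →
  Turb ν T E D G u p → ∀ a b ε : ℝ, 0 < a → b < T → 0 < ε → ∃ r₀ : ℝ, 0 < r₀ ∧
    ∀ r : ℝ, 0 < r → r < r₀ → ∀ S : Finset (ℝ × V),
      (∀ z ∈ S, z.1 ∈ Icc a b ∧ z.2 ∈ cube ∧ SingPt G u z.1 z.2) →
        (MovSep ν T r G u S → S.card * r ≤ ε) ∧
        (SepN ν r S → S.card * r ^ (25 / 23 : ℝ) ≤ ε)

/-- there are no singular points at the regular times -/
lemma not_sing {G : Set ℝ} {u : ℝ → V → V} (hG : IsOpen G)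
    (hu : ContDiffOn ℝ ∞ (fun z : ℝ × V => u z.1 z.2) (G ×ˢ univ)) {t : ℝ} (ht : t ∈ G) (x : V) :
    ¬ SingPt G u t x := by
  intro h
  have hO : IsOpen (G ×ˢ (univ : Set V)) := hG.prod isOpen_univ
  have h1 : ContinuousAt (fun z : ℝ × V => u z.1 z.2) (t, x) :=
    hu.continuousOn.continuousAt (hO.mem_nhds ⟨ht, mem_univ _⟩)
  have h2 : ∀ᶠ z in 𝓝 (t, x), ‖u z.1 z.2‖ < ‖u t x‖ + 1 :=
    h1.norm.eventually (gt_mem_nhds (by simp))
  obtain ⟨δ, hδ, h3⟩ := Metric.eventually_nhds_iff.1 h2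
  obtain ⟨s, _, hst, y, hy, hB⟩ := h δ hδ (‖u t x‖ + 1)
  have h4 : dist ((s, y) : ℝ × V) (t, x) < δ := by
    rw [Prod.dist_eq]
    exact max_lt (by rw [Real.dist_eq]; exact hst) hy
  exact absurd (h3 h4) (not_lt.2 hB.le)

theorem t_CON : S_FB → S_CON := by
  rintro ⟨C, δ₀, hC, hδ₀, hF⟩ ν T E D G u p hν h a b ε ha hb hε
  set Zt : Set ℝ := {t | t ∈ Icc a b ∧ ∃ x ∈ cube, SingPt G u t x} with hZ
  have hZG : ∀ t ∈ closure Zt, t ∉ G := by
    intro t ht htG
    obtain ⟨s, hsG, hs⟩ := (_root_.mem_closure_iff.1 ht) G h.openG htG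
    obtain ⟨_, x, _, hx⟩ := hs
    exact not_sing h.openG h.smooth_u hsG x hx
  set N : ℕ → Set ℝ := fun n =>
    {t | t ∈ Ioo 0 T ∧ ∃ s ∈ Zt, ν * |t - s| < 3 * (1 / ((n : ℝ) + 1)) ^ 2} with hN
  have hNo : ∀ n, IsOpen (N n) := by
    intro n
    have e : N n = Ioo 0 T ∩ ⋃ s ∈ Zt, {t : ℝ | ν * |t - s| < 3 * (1 / ((n : ℝ) + 1)) ^ 2} := by
      ext t
      simp only [hN, mem_setOf_eq, mem_inter_iff, mem_iUnion, exists_prop]
    rw [e]
    refine isOpen_Ioo.inter (isOpen_biUnion fun z _ => ?_)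
    exact isOpen_lt (by fun_prop) continuous_const
  have hanti : Antitone N := by
    intro n m hnm t ht
    obtain ⟨h1, s, hs, h2⟩ := ht
    refine ⟨h1, s, hs, h2.trans_le ?_⟩
    have h3 : (n : ℝ) ≤ m := Nat.cast_le.2 hnm
    gcongr
  have hint : IntegrableOn (fun t => enstrophy (u t)) (Ioo 0 T) := enst_ion h le_rfl le_rfl
  have hNT : ∀ n, N n ⊆ Ioo 0 T := fun n t ht => ht.1
  have hlim := tendsto_setIntegral_of_antitone (μ := volume) (f := fun t => enstrophy (u t))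
    (fun n => (hNo n).measurableSet) hanti ⟨0, hint.mono_set (hNT 0)⟩
  have hzero : volume (⋂ n, N n) = 0 := by
    refine measure_mono_null ?_ h.fullG
    intro t ht
    rw [mem_iInter] at ht
    refine ⟨(ht 0).1, hZG t ?_⟩
    rw [Metric.mem_closure_iff]
    intro η hη
    obtain ⟨n, hn⟩ := exists_nat_gt (3 / (ν * η))
    obtain ⟨_, s, hs, h2⟩ := ht n
    refine ⟨s, hs, ?_⟩
    rw [Real.dist_eq]
    have hn0 : (0 : ℝ) < (n : ℝ) + 1 := by positivity
    have h3 : (1 / ((n : ℝ) + 1)) ^ 2 ≤ 1 / ((n : ℝ) + 1) := by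
      have h4 : 1 / ((n : ℝ) + 1) ≤ 1 := by
        rw [div_le_one hn0]
        linarith [Nat.cast_nonneg (α := ℝ) n]
      have h5 : 0 < 1 / ((n : ℝ) + 1) := by positivity
      nlinarith
    have h6 : 3 * (1 / ((n : ℝ) + 1)) < ν * η := by
      rw [mul_one_div, div_lt_iff₀ hn0]
      rw [div_lt_iff₀ (by positivity)] at hn
      nlinarith [mul_pos hν hη]
    have h7 : ν * |t - s| < ν * η := by linarith
    exact lt_of_mul_lt_mul_left h7 hν.le
  rw [setIntegral_measure_zero _ hzero] at hlim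
  set M : ℝ := C / ν * C + C / ν * (1 + ((E / ν) ^ 2) ^ (2 / 23 : ℝ)) with hM
  have hM0 : 0 < M := by positivity
  have hev := hlim.eventually (gt_mem_nhds (show 0 < ε / M by positivity))
  obtain ⟨n, hn⟩ := hev.exists
  have hTb : 0 < T - b := by linarith
  refine ⟨min (min (1 / ((n : ℝ) + 1)) (δ₀ / (1 + (E / ν) ^ 2))) (min (min 1 (ν * a)) (ν * (T - b))),
    by positivity, ?_⟩
  intro r hr hrr S hS
  have r1 : r < 1 / ((n : ℝ) + 1) := hrr.trans_le ((min_le_left _ _).trans (min_le_left _ _))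
  have r2 : r < δ₀ / (1 + (E / ν) ^ 2) := hrr.trans_le ((min_le_left _ _).trans (min_le_right _ _))
  have r3 : r < 1 := hrr.trans_le
    ((min_le_right _ _).trans ((min_le_left _ _).trans (min_le_left _ _)))
  have r4 : r < ν * a := hrr.trans_le
    ((min_le_right _ _).trans ((min_le_left _ _).trans (min_le_right _ _)))
  have r5 : r < ν * (T - b) := hrr.trans_le ((min_le_right _ _).trans (min_le_right _ _))
  have r6 : r ^ 2 < r := by nlinarith
  have hrδ : (1 + (E / ν) ^ 2) * r ≤ δ₀ := by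
    rw [lt_div_iff₀ (by positivity)] at r2
    linarith
  obtain ⟨k1, k2, k3⟩ := hF ν T E D G u p hν h r hr hrδ S (by
    intro z hz
    obtain ⟨h1, h2, h3⟩ := hS z hz
    refine ⟨?_, ?_, h2, h3⟩
    · have : ν * a ≤ ν * z.1 := mul_le_mul_of_nonneg_left h1.1 hν.le
      linarith
    · have : ν * z.1 ≤ ν * b := mul_le_mul_of_nonneg_left h1.2 hν.le
      linarith [mul_sub ν T b])
  have hsub : near ν T r S ⊆ N n := by
    rintro t ⟨h1, z, hz, h2⟩
    obtain ⟨h3, h4, h5⟩ := hS z hz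
    refine ⟨h1, z.1, ⟨h3, z.2, h4, h5⟩, h2.trans ?_⟩
    gcongr
  have hdT : disT ν T r u S ≤ ε / M := by
    refine le_trans ?_ hn.le
    exact setIntegral_mono_set (hint.mono_set (hNT n))
      (Eventually.of_forall fun t => enst_nn _) hsub.eventuallyLE
  have hdT0 : 0 ≤ disT ν T r u S := integral_nonneg fun t => enst_nn _
  have hfin : M * disT ν T r u S ≤ ε := by
    calc M * disT ν T r u S ≤ M * (ε / M) := mul_le_mul_of_nonneg_left hdT hM0.le
      _ = ε := by field_simp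
  refine ⟨fun hMS => ?_, fun hSep => ?_⟩
  · have h1 := k1 hMS
    calc (S.card : ℝ) * r ≤ C / ν * disN ν T r G u S := h1
      _ ≤ C / ν * (C * disT ν T r u S) := mul_le_mul_of_nonneg_left k2 (by positivity)
      _ ≤ M * disT ν T r u S := by
        rw [hM, add_mul, ← mul_assoc]
        have : 0 ≤ C / ν * (1 + ((E / ν) ^ 2) ^ (2 / 23 : ℝ)) * disT ν T r u S := by positivity
        linarith
      _ ≤ ε := hfin
  · have h1 := k3 hSep
    have hQ : 0 ≤ (E / ν) ^ 2 := sq_nonneg _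
    have e1 : r ^ (25 / 23 : ℝ) = r * r ^ (2 / 23 : ℝ) := by
      rw [show (25 / 23 : ℝ) = 1 + 2 / 23 by norm_num, Real.rpow_add hr, Real.rpow_one]
    have hr0 : 0 < r ^ (2 / 23 : ℝ) := Real.rpow_pos_of_pos hr _
    have e2 : ((E / ν) ^ 2 / r) ^ (2 / 23 : ℝ) * r ^ (2 / 23 : ℝ) =
        ((E / ν) ^ 2) ^ (2 / 23 : ℝ) := by
      rw [Real.div_rpow hQ hr.le]
      field_simp
    have hr1 : r ^ (2 / 23 : ℝ) ≤ 1 := Real.rpow_le_one hr.le r3.le (by norm_num)
    calc (S.card : ℝ) * r ^ (25 / 23 : ℝ) = (S.card * r) * r ^ (2 / 23 : ℝ) := by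
          rw [e1]
          ring
      _ ≤ (C / ν * ((1 + ((E / ν) ^ 2 / r) ^ (2 / 23 : ℝ)) * disT ν T r u S)) *
          r ^ (2 / 23 : ℝ) := mul_le_mul_of_nonneg_right h1 hr0.le
      _ = C / ν * (r ^ (2 / 23 : ℝ) + ((E / ν) ^ 2 / r) ^ (2 / 23 : ℝ) * r ^ (2 / 23 : ℝ)) *
          disT ν T r u S := by ring
      _ ≤ C / ν * (1 + ((E / ν) ^ 2) ^ (2 / 23 : ℝ)) * disT ν T r u S := by
        rw [e2]
        gcongr
      _ ≤ M * disT ν T r u S := by
        rw [hM, add_mul]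
        have : 0 ≤ C / ν * C * disT ν T r u S := by positivity
        linarith
      _ ≤ ε := hfin

theorem p_con : S_CON := t_CON p_fb

end Pool.Agent.Y8.FB
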