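import Pool.Agent.Y8.FB.One
import Pool.Agent.W221.NS.Fin2

/-!
The count of singular points in moving frames and in the fixed frame (helper8).
-/

set_option autoImplicit false

open MeasureTheory Set Metric
open scoped ContDiff NNReal ENNReal

namespace Pool.Agent.Y8.FB

open H459R3.NS W221.NS Pool.Agent.Y8
open Pool.Agent.Y496.NS.TU (enstrophy_sm)

lemma mo_smul (r c : ℝ) (v : V → V) (x : V) : mo r (fun y => c • v y) x = c • mo r v x := by
  funext i
  show ∫ y, th y * (c • v (x + r • y)) i = c * ∫ y, th y * v (x + r • y) i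
  rw [← integral_const_mul]
  refine integral_congr_ae (ae_of_all _ fun y => ?_)
  show th y * (c * v (x + r • y) i) = c * (th y * v (x + r • y) i)
  ring

/-- scaled particles -/
lemma fluid_up {ν T r : ℝ} (hν : 0 < ν) {G : Set ℝ} {u : ℝ → V → V} {X : ℝ → V}
    (hX : Fluid T r G u X) :
    Fluid (ν * T) r {t | t / ν ∈ G} (fun t x => ν⁻¹ • u (t / ν) x) (fun t => X (t / ν)) := by
  refine ⟨?_, fun t ht => ?_⟩
  · refine hX.diff.comp (f := fun t : ℝ => t / ν) (by fun_prop) ?_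
    intro t ht
    exact ⟨div_pos ht.1 hν, by rw [div_lt_iff₀ hν, mul_comm]; exact ht.2⟩
  · have e : (fun t => X (t / ν)) = fun t => X (ν⁻¹ * t) := by
      funext t
      rw [div_eq_inv_mul]
    have h1 : deriv (fun t => X (ν⁻¹ * t)) t = ν⁻¹ • deriv X (ν⁻¹ * t) :=
      deriv_comp_mul_left ν⁻¹ X t
    rw [e, h1, mo_smul]
    have ht' : ν⁻¹ * t ∈ G := by
      rw [← div_eq_inv_mul]
      exact ht
    rw [hX.vel _ ht', div_eq_inv_mul]

lemma fluid_down {ν T r : ℝ} (hν : 0 < ν) {G : Set ℝ} {u : ℝ → V → V} {X : ℝ → V}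
    (hX : Fluid (ν * T) r {t | t / ν ∈ G} (fun t x => ν⁻¹ • u (t / ν) x) X) :
    Fluid T r G u (fun t => X (ν * t)) := by
  refine ⟨?_, fun t ht => ?_⟩
  · refine hX.diff.comp (f := fun t : ℝ => ν * t) (by fun_prop) ?_
    intro t ht
    exact ⟨mul_pos hν ht.1, mul_lt_mul_of_pos_left ht.2 hν⟩
  · have h1 : deriv (fun t => X (ν * t)) t = ν • deriv X (ν * t) := deriv_comp_mul_left ν X t
    have ht' : ν * t / ν ∈ G := by
      rw [mul_div_cancel_left₀ _ hν.ne']
      exact ht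
    rw [h1, hX.vel (ν * t) ht', mo_smul, mul_div_cancel_left₀ _ hν.ne', smul_smul,
      mul_inv_cancel₀ hν.ne', one_smul]

/-- the scaled points -/
def sc (ν : ℝ) (z : ℝ × V) : ℝ × V := (ν * z.1, z.2)

lemma sc_inj {ν : ℝ} (hν : 0 < ν) : Function.Injective (sc ν) := by
  rintro ⟨t, x⟩ ⟨t', x'⟩ hh
  simp only [sc, Prod.mk.injEq] at hh
  obtain ⟨h1, h2⟩ := hh
  rw [mul_left_cancel₀ hν.ne' h1, h2]

lemma nbh_sc {ν T r : ℝ} (hν : 0 < ν) (G : Set ℝ) (u : ℝ → V → V) (S : Finset (ℝ × V))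
    [DecidableEq (ℝ × V)] (t : ℝ) :
    Nbh 1 (ν * T) r {t | t / ν ∈ G} (fun t x => ν⁻¹ • u (t / ν) x) (S.image (sc ν)) t =
      Nbh ν T r G u S (t / ν) := by
  have et : ∀ z : ℝ × V, 1 * |t - (sc ν z).1| = ν * |t / ν - z.1| := by
    intro z
    rw [one_mul]
    show |t - ν * z.1| = ν * |t / ν - z.1|
    nth_rewrite 2 [← abs_of_pos hν]
    rw [← abs_mul]
    congr 1
    field_simp
  ext x
  constructor
  · rintro ⟨z', hz', h1, X, hX, h2, h3⟩
    obtain ⟨z, hz, rfl⟩ := Finset.mem_image.1 hz'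
    rw [et] at h1
    refine ⟨z, hz, h1, fun t => X (ν * t), fluid_down hν hX, h2, ?_⟩
    show ‖X (ν * (t / ν)) - x‖ < 8 * r
    rw [mul_div_cancel₀ _ hν.ne']
    exact h3
  · rintro ⟨z, hz, h1, X, hX, h2, h3⟩
    refine ⟨sc ν z, Finset.mem_image_of_mem _ hz, by rw [et]; exact h1, fun t => X (t / ν),
      fluid_up hν hX, ?_, h3⟩
    show ‖X (ν * z.1 / ν) - z.2‖ < r / 4
    rw [mul_div_cancel_left₀ _ hν.ne']
    exact h2

/-- change of variables -/
lemma chg {ν : ℝ} (hν : 0 < ν) {A : Set ℝ} (hA : MeasurableSet A) (g : ℝ → ℝ) :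
    ∫ t in {t | t / ν ∈ A}, g (t / ν) = ν * ∫ t in A, g t := by
  have hm : MeasurableSet {t : ℝ | t / ν ∈ A} := by
    have : Measurable (fun t : ℝ => t / ν) := by fun_prop
    exact this hA
  rw [← integral_indicator hm, ← integral_indicator hA]
  have e : ({t : ℝ | t / ν ∈ A}.indicator fun t => g (t / ν)) =
      fun t => (A.indicator g) (t / ν) := by
    funext t
    by_cases ht : t / ν ∈ A
    · rw [indicator_of_mem ht, indicator_of_mem (show t ∈ {t : ℝ | t / ν ∈ A} from ht)]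
    · rw [indicator_of_notMem ht, indicator_of_notMem (show t ∉ {t : ℝ | t / ν ∈ A} from ht)]
  rw [e, Measure.integral_comp_div, abs_of_pos hν, smul_eq_mul]

theorem t_FB : S_WSCAL → S_FB1 → S_FB := by
  intro hsc h1
  obtain ⟨C, δ₀, hC, hδ₀, h1⟩ := h1
  refine ⟨C, δ₀, hC, hδ₀, ?_⟩
  intro ν T E D G u p hν hT r hr hrδ S hS
  obtain ⟨hT', hsing⟩ := hsc ν T E D G u p hν hT
  classical
  have hcard : (S.image (sc ν)).card = S.card := Finset.card_image_of_injective S (sc_inj hν)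
  have key := h1 _ _ _ _ _ _ hT' r hr hrδ (S.image (sc ν)) (by
    intro z hz'
    obtain ⟨z, hzS, rfl⟩ := Finset.mem_image.1 hz'
    obtain ⟨h2, h3, h4, h5⟩ := hS z hzS
    exact ⟨h2, h3, h4, hsing z.1 z.2 h5⟩)
  have hIoo : Ioo 0 (ν * T) = {t : ℝ | t / ν ∈ Ioo 0 T} := by
    ext t
    simp only [mem_Ioo, mem_setOf_eq]
    rw [div_lt_iff₀ hν, mul_comm T ν]
    constructor
    · rintro ⟨a, b⟩
      exact ⟨div_pos a hν, b⟩
    · rintro ⟨a, b⟩
      refine ⟨?_, b⟩
      by_contra hc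
      exact absurd a (not_lt.2 (div_nonpos_of_nonpos_of_nonneg (not_lt.1 hc) hν.le))
  have hnear : near 1 (ν * T) r (S.image (sc ν)) = {t : ℝ | t / ν ∈ near ν T r S} := by
    ext t
    have et : ∀ z : ℝ × V, 1 * |t - (sc ν z).1| = ν * |t / ν - z.1| := by
      intro z
      rw [one_mul]
      show |t - ν * z.1| = ν * |t / ν - z.1|
      nth_rewrite 2 [← abs_of_pos hν]
      rw [← abs_mul]
      congr 1
      field_simp
    constructor
    · rintro ⟨ha, z', hz', hb⟩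
      obtain ⟨z, hz, rfl⟩ := Finset.mem_image.1 hz'
      rw [et] at hb
      rw [hIoo] at ha
      exact ⟨ha, z, hz, hb⟩
    · rintro ⟨ha, z, hz, hb⟩
      refine ⟨?_, sc ν z, Finset.mem_image_of_mem _ hz, by rw [et]; exact hb⟩
      rw [hIoo]
      exact ha
  have hN : disN 1 (ν * T) r {t | t / ν ∈ G} (fun t x => ν⁻¹ • u (t / ν) x) (S.image (sc ν)) =
      ν⁻¹ * disN ν T r G u S := by
    unfold disN
    rw [hIoo]
    have e : ∀ t : ℝ, ∫ x in Nbh 1 (ν * T) r {t | t / ν ∈ G}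
        (fun t x => ν⁻¹ • u (t / ν) x) (S.image (sc ν)) t,
        gsq (fun x => ν⁻¹ • u (t / ν) x) x =
        (fun t' => ν⁻¹ ^ 2 * ∫ x in Nbh ν T r G u S t', gsq (u t') x) (t / ν) := by
      intro t
      rw [nbh_sc hν]
      simp only [gsq_smul]
      rw [integral_const_mul]
    simp only [e]
    rw [chg hν measurableSet_Ioo (fun t' => ν⁻¹ ^ 2 * ∫ x in Nbh ν T r G u S t', gsq (u t') x),
      integral_const_mul]
    field_simp
  have hTT : disT 1 (ν * T) r (fun t x => ν⁻¹ • u (t / ν) x) (S.image (sc ν)) =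
      ν⁻¹ * disT ν T r u S := by
    unfold disT
    rw [hnear]
    have e : ∀ t : ℝ, enstrophy (fun x => ν⁻¹ • u (t / ν) x) =
        (fun t' => ν⁻¹ ^ 2 * enstrophy (u t')) (t / ν) := by
      intro t
      exact enstrophy_sm _ _
    simp only [e]
    rw [chg hν (near_open ν T r S).measurableSet (fun t' => ν⁻¹ ^ 2 * enstrophy (u t')),
      integral_const_mul]
    field_simp
  rw [hcard, hN, hTT] at key
  obtain ⟨k1, k2, k3⟩ := key
  refine ⟨fun hM => ?_, ?_, fun hSep => ?_⟩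
  · refine (k1 ?_).trans (le_of_eq (by ring))
    intro z' hz' w' hw' hne hlt X hX h2
    obtain ⟨z, hz, rfl⟩ := Finset.mem_image.1 hz'
    obtain ⟨w, hw, rfl⟩ := Finset.mem_image.1 hw'
    refine hM z hz w hw (fun e => hne (by rw [e])) ?_ (fun t => X (ν * t)) (fluid_down hν hX) h2
    have e : 1 * |(sc ν z).1 - (sc ν w).1| = ν * |z.1 - w.1| := by
      rw [one_mul]
      show |ν * z.1 - ν * w.1| = ν * |z.1 - w.1|
      rw [← mul_sub, abs_mul, abs_of_pos hν]
    rw [← e]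
    exact hlt
  · have h2 : ν⁻¹ * disN ν T r G u S ≤ ν⁻¹ * (C * disT ν T r u S) := k2.trans (le_of_eq (by ring))
    exact le_of_mul_le_mul_left h2 (by positivity)
  · refine (k3 ?_).trans (le_of_eq (by ring))
    intro z' hz' w' hw' hne
    obtain ⟨z, hz, rfl⟩ := Finset.mem_image.1 hz'
    obtain ⟨w, hw, rfl⟩ := Finset.mem_image.1 hw'
    rcases hSep z hz w hw (fun e => hne (by rw [e])) with h2 | h2
    · left
      show r ^ 2 ≤ |ν * z.1 - ν * w.1|
      rw [← mul_sub, abs_mul, abs_of_pos hν]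
      exact h2
    · right
      exact h2

theorem p_fb : S_FB :=
  t_FB Pool.Agent.Y8.B.p_wscal (t_FB1 (t_WIN Pool.Agent.Y8.B.p_crit3 Pool.Agent.Y8.B.p_wfl) t_SLI
    Pool.Agent.Y8.B.p_restr Pool.Agent.Y8.B.p_finm)

end Pool.Agent.Y8.FB
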