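import Pool.Agent.Y8.FB.Sli

/-!
The count, viscosity one (helper8).
-/

set_option autoImplicit false

open MeasureTheory Set Metric
open scoped ContDiff NNReal ENNReal

namespace Pool.Agent.Y8.FB

open H459R3.NS W221.NS Pool.Agent.Y8 Pool.Agent.Y590.NS
open Pool.Agent.Y496.NS.TU (enst_ion)

lemma card_intZ {N : ℕ} (x : ℝ) (K : Finset ℤ) (hK : ∀ k ∈ K, x < k ∧ (k : ℝ) < x + N) :
    K.card ≤ N := by
  rcases K.eq_empty_or_nonempty with h | h
  · simp [h]
  · set j0 := K.min' h with hj0
    have hsub : K ⊆ Finset.Ico j0 (j0 + N) := by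
      intro j hj
      rw [Finset.mem_Ico]
      refine ⟨Finset.min'_le K j hj, ?_⟩
      have h1 := (hK j hj).2
      have h2 := (hK j0 (Finset.min'_mem K h)).1
      have : (j : ℝ) < j0 + N := by linarith
      exact_mod_cast this
    calc K.card ≤ _ := Finset.card_le_card hsub
      _ = N := by simp

/-- the sum over the windows in time -/
lemma winsum {f : ℝ → ℝ} (hf0 : ∀ t, 0 ≤ f t) {U : Set ℝ} (hf : IntegrableOn f U)
    {τ r A a b : ℝ} (hτ : 0 < τ) (hA : 0 ≤ A) (N : ℕ) (hN : a + b ≤ N * τ)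
    (S : Finset (ℝ × V)) (J : ℤ → Set ℝ) (hJm : ∀ k, MeasurableSet (J k))
    (hJ : ∀ k, J k ⊆ Ioo (k * τ - a) (k * τ + b))
    (hJU : ∀ k, (S.filter (fun z => ⌊z.1 / τ⌋ = k)).Nonempty → J k ⊆ U)
    (hc : ∀ k, (S.filter (fun z => ⌊z.1 / τ⌋ = k)).Nonempty →
      ((S.filter (fun z => ⌊z.1 / τ⌋ = k)).card : ℝ) * r ≤ A * ∫ t in J k, f t) :
    S.card * r ≤ A * (N * ∫ t in U, f t) := by
  classical
  set K := S.image (fun z => ⌊z.1 / τ⌋) with hK
  have h1 : S.card = ∑ k ∈ K, (S.filter (fun z => ⌊z.1 / τ⌋ = k)).card :=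
    Finset.card_eq_sum_card_image _ _
  have hne : ∀ k ∈ K, (S.filter (fun z => ⌊z.1 / τ⌋ = k)).Nonempty := by
    intro k hk
    obtain ⟨z, hz, rfl⟩ := Finset.mem_image.1 hk
    exact ⟨z, Finset.mem_filter.2 ⟨hz, rfl⟩⟩
  have h2 : (S.card : ℝ) * r ≤ ∑ k ∈ K, A * ∫ t in J k, f t := by
    rw [h1]
    push_cast
    rw [Finset.sum_mul]
    exact Finset.sum_le_sum fun k hk => hc k (hne k hk)
  refine h2.trans ?_
  rw [← Finset.mul_sum]
  refine mul_le_mul_of_nonneg_left ?_ hA
  have h3 : ∀ k ∈ K, ∫ t in J k, f t = ∫ t in U, (J k).indicator f t := by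
    intro k hk
    rw [setIntegral_indicator (hJm k), inter_eq_right.2 (hJU k (hne k hk))]
  have hint : ∀ k ∈ K, IntegrableOn ((J k).indicator f) U := fun k _ =>
    Integrable.indicator hf (hJm k)
  rw [Finset.sum_congr rfl h3, ← integral_finsetSum _ hint, ← integral_const_mul]
  refine integral_mono (integrable_finsetSum _ hint) (hf.const_mul _) fun t => ?_
  have h4 : ∑ k ∈ K, (J k).indicator f t = ((K.filter (fun k => t ∈ J k)).card : ℝ) * f t := by
    rw [← nsmul_eq_mul, ← Finset.sum_const, Finset.sum_filter]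
    refine Finset.sum_congr rfl fun k _ => ?_
    rw [indicator_apply]
  rw [h4]
  refine mul_le_mul_of_nonneg_right ?_ (hf0 t)
  have h5 := card_intZ (N := N) ((t - b) / τ) (K.filter (fun k => t ∈ J k)) (by
    intro k hk
    have h6 := hJ k (Finset.mem_filter.1 hk).2
    constructor
    · rw [div_lt_iff₀ hτ]
      linarith [h6.2]
    · rw [div_add' _ _ _ hτ.ne', lt_div_iff₀ hτ]
      linarith [h6.1])
  exact Nat.cast_le.2 h5

/-- the singular points in a part of the time interval -/
lemma finR (hR : S_RESTR) {C δ₀ : ℝ}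
    (hF : ∀ (T E D : ℝ) (G : Set ℝ) (u : ℝ → V → V) (p : ℝ → V → ℝ), Turb 1 T E D G u p →
    ∀ r : ℝ, 0 < r → (1 + E ^ 2) * r ≤ δ₀ → ∀ S : Finset (ℝ × V), Sep r S →
      (∀ z ∈ S, 0 < z.1 - r ^ 2 ∧ z.1 + r ^ 2 < T ∧ z.2 ∈ cube ∧ SingPt G u z.1 z.2) →
        S.card * r ≤ C * D * (1 + (E ^ 2 / r) ^ (2 / 23 : ℝ)))
    {T E D : ℝ} {G : Set ℝ} {u : ℝ → V → V} {p : ℝ → V → ℝ} (hT : Turb 1 T E D G u p)
    {r a b : ℝ} (hr : 0 < r) (hrF : (1 + E ^ 2) * r ≤ δ₀) (ha0 : 0 ≤ a) (hab : a < b)
    (hb : b ≤ T) (S : Finset (ℝ × V)) (hS : Sep r S)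
    (hz : ∀ z ∈ S, a + r ^ 2 < z.1 ∧ z.1 + r ^ 2 < b ∧ z.2 ∈ cube ∧ SingPt G u z.1 z.2) :
    S.card * r ≤ C * (∫ t in Ioo a b, enstrophy (u t)) * (1 + (E ^ 2 / r) ^ (2 / 23 : ℝ)) := by
  obtain ⟨hT', hsing⟩ := hR 1 T E D G u p hT a b ha0 hab hb
  classical
  have hr2 : 0 < r ^ 2 := by positivity
  set f : ℝ × V → ℝ × V := fun z => (z.1 - a, z.2) with hf
  have hinj : Function.Injective f := by
    rintro ⟨t, x⟩ ⟨t', x'⟩ hh
    simp only [hf, Prod.mk.injEq] at hh
    obtain ⟨h1, h2⟩ := hh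
    rw [show t = t' by linarith, h2]
  have hcard : (S.image f).card = S.card := Finset.card_image_of_injective S hinj
  have hsep : Sep r (S.image f) := by
    intro z hz' w hw' hne
    obtain ⟨z, hzS, rfl⟩ := Finset.mem_image.1 hz'
    obtain ⟨w, hwS, rfl⟩ := Finset.mem_image.1 hw'
    have hne' : z ≠ w := fun e => hne (by rw [e])
    have e1 : (f z).1 - (f w).1 = z.1 - w.1 := by
      show z.1 - a - (w.1 - a) = z.1 - w.1
      ring
    rw [e1]
    exact hS z hzS w hwS hne'
  have h1 := hF _ _ _ _ _ _ hT' r hr hrF (S.image f) hsep (by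
    intro z hz'
    obtain ⟨z, hzS, rfl⟩ := Finset.mem_image.1 hz'
    obtain ⟨h2, h3, h4, h5⟩ := hz z hzS
    refine ⟨?_, ?_, h4, hsing z.1 z.2 ⟨?_, ?_⟩ h5⟩
    · show 0 < z.1 - a - r ^ 2
      linarith
    · show z.1 - a + r ^ 2 < b - a
      linarith
    · linarith
    · linarith)
  rw [hcard] at h1
  exact h1

lemma near_open (ν T r : ℝ) (S : Finset (ℝ × V)) : IsOpen (near ν T r S) := by
  have e : near ν T r S = Ioo 0 T ∩ ⋃ z ∈ S, {t : ℝ | ν * |t - z.1| < 3 * r ^ 2} := by
    ext t
    simp only [near, mem_setOf_eq, mem_inter_iff, mem_iUnion, exists_prop]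
  rw [e]
  refine isOpen_Ioo.inter (isOpen_biUnion fun z _ => ?_)
  exact isOpen_lt (by fun_prop) continuous_const

theorem t_FB1 (hW : S_WIN) (hS : S_SLI) (hR : S_RESTR) (hF : S_FINM) : S_FB1 := by
  obtain ⟨CW, hCW, hW⟩ := hW
  obtain ⟨CS, δS, hCS, hδS, hSl⟩ := hS
  obtain ⟨CF, δF, hCF, hδF, hF⟩ := hF
  refine ⟨CW * 32 + CS + CF * 5, min (min δS δF) 1, by positivity, by positivity, ?_⟩
  intro T E D G u p h r hr hrδ S hS
  have hrS : (1 + E ^ 2) * r ≤ δS := hrδ.trans ((min_le_left _ _).trans (min_le_left _ _))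
  have hrF : (1 + E ^ 2) * r ≤ δF := hrδ.trans ((min_le_left _ _).trans (min_le_right _ _))
  have hrE : (1 + E ^ 2) * r ≤ 1 := hrδ.trans (min_le_right _ _)
  have hr1 : r ≤ 1 := by nlinarith [mul_nonneg (sq_nonneg E) hr.le]
  have hr2 : 0 < r ^ 2 := by positivity
  obtain ⟨hsl1, hsl2, hsl3⟩ := hSl T E D G u p h r hr hrS S
    (fun z hz => ⟨by linarith [(hS z hz).1], by linarith [(hS z hz).2.1], (hS z hz).2.2.1⟩)
  have henT : IntegrableOn (fun t => enstrophy (u t)) (Ioo 0 T) := enst_ion h le_rfl le_rfl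
  -- the dissipation in the moving neighbourhood at the time `t`
  obtain ⟨f, hf⟩ : ∃ f : ℝ → ℝ, f = fun t => ∫ x in Nbh 1 T r G u S t, gsq (u t) x := ⟨_, rfl⟩
  have hf0 : ∀ t, 0 ≤ f t := fun t => by
    rw [hf]
    exact integral_nonneg fun x => gsq_nn _ x
  have hfo : ∀ t ∈ G, ENNReal.ofReal (f t) =
      ∫⁻ x in Nbh 1 T r G u S t, ENNReal.ofReal (gsq (u t) x) := by
    intro t ht
    rw [hf]
    refine ofReal_integral_eq_lintegral_ofReal ?_ (ae_of_all _ fun z => gsq_nn _ z)
    refine ⟨(gsq_sm (h.spv ht).1).continuous.aestronglyMeasurable, ?_⟩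
    rw [hasFiniteIntegral_iff_ofReal (ae_of_all _ fun z => gsq_nn _ z)]
    exact (hsl1 t ht).trans_lt ENNReal.ofReal_lt_top
  have hfle : ∀ t ∈ G, f t ≤ CS * enstrophy (u t) := by
    intro t ht
    have h1 := hsl1 t ht
    rw [← hfo t ht] at h1
    exact (ENNReal.ofReal_le_ofReal_iff (mul_nonneg hCS.le (enst_nn _))).1 h1
  have hfG : IntegrableOn f G := by
    refine Integrable.mono' (g := fun t => CS * enstrophy (u t)) (h.enst_int.const_mul CS) ?_ ?_
    · have h1 : Measurable (fun t : ℝ => (G.indicator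
        (fun t => ∫⁻ x in Nbh 1 T r G u S t, ENNReal.ofReal (gsq (u t) x)) t).toReal) :=
        hsl3.ennreal_toReal
      refine h1.aestronglyMeasurable.congr ?_
      filter_upwards [ae_restrict_mem h.openG.measurableSet] with t ht
      rw [indicator_of_mem ht, ← hfo t ht, ENNReal.toReal_ofReal (hf0 t)]
    · filter_upwards [ae_restrict_mem h.openG.measurableSet] with t ht
      rw [Real.norm_eq_abs, abs_of_nonneg (hf0 t)]
      exact hfle t ht
  have hGae : ∀ a b : ℝ, 0 ≤ a → b ≤ T → (Ioo a b ∩ G : Set ℝ) =ᵐ[volume] (Ioo a b : Set ℝ) := by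
    intro a b ha hb
    refine Filter.EventuallyLE.antisymm inter_subset_left.eventuallyLE ?_
    rw [ae_le_set]
    refine measure_mono_null ?_ h.fullG
    intro t ht
    exact ⟨⟨ha.trans_lt ht.1.1, ht.1.2.trans_le hb⟩, fun h3 => ht.2 ⟨ht.1, h3⟩⟩
  have hfT : IntegrableOn f (Ioo 0 T) :=
    (hfG.mono_set inter_subset_right).congr_set_ae (hGae 0 T le_rfl le_rfl).symm
  have hdisN : disN 1 T r G u S = ∫ t in Ioo 0 T, f t := by
    rw [hf]
    rfl
  have hN0 : 0 ≤ disN 1 T r G u S := by
    rw [hdisN]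
    exact integral_nonneg hf0
  have hT0 : 0 ≤ disT 1 T r u S := integral_nonneg fun t => enst_nn _
  have hnear : near 1 T r S ⊆ Ioo 0 T := fun t ht => ht.1
  refine ⟨?_, ?_, ?_⟩
  · -- moving frames
    intro hMS
    have key : S.card * r ≤ CW * ((32 : ℕ) * ∫ t in Ioo 0 T, f t) := by
      refine winsum hf0 hfT (τ := r ^ 2 / 32) (a := 61 / 64 * r ^ 2) (b := 3 / 64 * r ^ 2)
        (by positivity) hCW.le 32 (by push_cast; linarith) S
        (fun k => Ioo ((k + 3 / 2) * (r ^ 2 / 32) - r ^ 2) ((k + 3 / 2) * (r ^ 2 / 32)))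
        (fun k => measurableSet_Ioo) ?_ ?_ ?_
      · intro k t ht
        constructor
        · linarith [ht.1]
        · linarith [ht.2]
      · rintro k ⟨z, hz⟩
        obtain ⟨hzS, hzk⟩ := Finset.mem_filter.1 hz
        obtain ⟨h1, h2⟩ := Int.floor_eq_iff.1 hzk
        rw [le_div_iff₀ (by positivity)] at h1
        rw [div_lt_iff₀ (by positivity)] at h2
        have h3 := (hS z hzS).1
        have h4 := (hS z hzS).2.1
        intro t ht
        constructor
        · linarith [ht.1]
        · linarith [ht.2]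
      · rintro k ⟨z0, hz0⟩
        obtain ⟨hzS0, hzk0⟩ := Finset.mem_filter.1 hz0
        obtain ⟨h10, h20⟩ := Int.floor_eq_iff.1 hzk0
        rw [le_div_iff₀ (by positivity)] at h10
        rw [div_lt_iff₀ (by positivity)] at h20
        have h30 := (hS z0 hzS0).1
        have h40 := (hS z0 hzS0).2.1
        set s : ℝ := (k + 3 / 2) * (r ^ 2 / 32) with hs
        have hs1 : r ^ 2 < s := by linarith
        have hs2 : s < T := by linarith
        have h5 := hW T E D G u p h r s hr hr1 hs1 hs2 S (S.filter (fun z => ⌊z.1 / (r ^ 2 / 32)⌋ = k))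
          (Finset.filter_subset _ _) hMS (by
            intro z hz
            obtain ⟨hzS, hzk⟩ := Finset.mem_filter.1 hz
            obtain ⟨h1, h2⟩ := Int.floor_eq_iff.1 hzk
            rw [le_div_iff₀ (by positivity)] at h1
            rw [div_lt_iff₀ (by positivity)] at h2
            refine ⟨⟨by linarith, by linarith⟩, (hS z hzS).2.2.2⟩)
        have h6 : ∫⁻ t in Ioo (s - r ^ 2) s ∩ G, ∫⁻ x in Nbh 1 T r G u S t,
            ENNReal.ofReal (gsq (u t) x) = ENNReal.ofReal (∫ t in Ioo (s - r ^ 2) s, f t) := by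
          rw [← setIntegral_congr_set (hGae (s - r ^ 2) s (by linarith) hs2.le),
            ofReal_integral_eq_lintegral_ofReal (hfG.mono_set inter_subset_right)
              (ae_of_all _ hf0)]
          refine setLIntegral_congr_fun (measurableSet_Ioo.inter h.openG.measurableSet) ?_
          intro t ht
          exact (hfo t ht.2).symm
        rw [h6, ← ENNReal.ofReal_mul hCW.le] at h5
        exact (ENNReal.ofReal_le_ofReal_iff
          (mul_nonneg hCW.le (integral_nonneg hf0))).1 h5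
    rw [← hdisN] at key
    push_cast at key
    have h1 : 0 ≤ CS * disN 1 T r G u S := by positivity
    have h2 : 0 ≤ CF * disN 1 T r G u S := by positivity
    calc (S.card : ℝ) * r ≤ CW * (32 * disN 1 T r G u S) := key
      _ ≤ _ := by
        rw [add_mul, add_mul]
        linarith
  · -- the moving neighbourhood
    have h1 : disN 1 T r G u S ≤ CS * disT 1 T r u S := by
      rw [hdisN]
      unfold disT
      rw [← integral_const_mul, ← inter_eq_right.2 hnear,
        ← setIntegral_indicator (near_open 1 T r S).measurableSet]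
      refine setIntegral_mono_on_ae hfT
        ((henT.const_mul CS).indicator (near_open 1 T r S).measurableSet) measurableSet_Ioo ?_
      have hae : ∀ᵐ t ∂(volume.restrict (Ioo 0 T)), t ∈ G := aeT h le_rfl le_rfl
      rw [ae_restrict_iff' measurableSet_Ioo] at hae
      filter_upwards [hae] with t htG ht
      by_cases htn : t ∈ near 1 T r S
      · rw [indicator_of_mem htn]
        exact hfle t (htG ht)
      · rw [indicator_of_notMem htn]
        have h2 := hsl2 t htn (htG ht)
        rw [hf]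
        simp only [h2]
        simp
    have h2 : 0 ≤ CW * disT 1 T r u S := by positivity
    have h3 : 0 ≤ CF * disT 1 T r u S := by positivity
    refine h1.trans ?_
    rw [add_mul, add_mul]
    linarith
  · -- the fixed frame
    intro hSep
    set P : ℝ := (E ^ 2 / r) ^ (2 / 23 : ℝ) with hP
    have hP0 : 0 ≤ P := by positivity
    have key : S.card * r ≤ CF * (1 + P) * ((5 : ℕ) * ∫ t in near 1 T r S, enstrophy (u t)) := by
      refine winsum (fun t => enst_nn (u t)) (henT.mono_set hnear) (τ := r ^ 2)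
        (a := 2 * r ^ 2) (b := 3 * r ^ 2) hr2 (by positivity) 5 (by push_cast; linarith) S
        (fun k => Ioo (max 0 ((k - 2) * r ^ 2)) (min T ((k + 3) * r ^ 2)))
        (fun k => measurableSet_Ioo) ?_ ?_ ?_
      · intro k t ht
        have h1 := (le_max_right _ _).trans_lt ht.1
        have h2 := ht.2.trans_le (min_le_right _ _)
        constructor
        · linarith
        · linarith
      · rintro k ⟨z, hz⟩
        obtain ⟨hzS, hzk⟩ := Finset.mem_filter.1 hz
        obtain ⟨h1, h2⟩ := Int.floor_eq_iff.1 hzk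
        rw [le_div_iff₀ hr2] at h1
        rw [div_lt_iff₀ hr2] at h2
        intro t ht
        have h3 := (le_max_right _ _).trans_lt ht.1
        have h4 := ht.2.trans_le (min_le_right _ _)
        refine ⟨⟨(le_max_left _ _).trans_lt ht.1, ht.2.trans_le (min_le_left _ _)⟩, z, hzS, ?_⟩
        rw [one_mul, abs_lt]
        constructor
        · linarith
        · linarith
      · rintro k ⟨z0, hz0⟩
        obtain ⟨hzS0, hzk0⟩ := Finset.mem_filter.1 hz0
        obtain ⟨h10, h20⟩ := Int.floor_eq_iff.1 hzk0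
        rw [le_div_iff₀ hr2] at h10
        rw [div_lt_iff₀ hr2] at h20
        have h30 := (hS z0 hzS0).1
        have h40 := (hS z0 hzS0).2.1
        have h5 := finR hR hF h (a := max 0 ((k - 2) * r ^ 2)) (b := min T ((k + 3) * r ^ 2))
          hr hrF (le_max_left _ _)
          (max_lt (lt_min (by linarith) (by linarith)) (lt_min (by linarith) (by linarith)))
          (min_le_left _ _) (S.filter (fun z => ⌊z.1 / r ^ 2⌋ = k))
          (fun z hz w hw hne => hSep z (Finset.filter_subset _ _ hz) w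
            (Finset.filter_subset _ _ hw) hne) (by
            intro z hz
            obtain ⟨hzS, hzk⟩ := Finset.mem_filter.1 hz
            obtain ⟨h1, h2⟩ := Int.floor_eq_iff.1 hzk
            rw [le_div_iff₀ hr2] at h1
            rw [div_lt_iff₀ hr2] at h2
            obtain ⟨h3, h4, h5, h6⟩ := hS z hzS
            refine ⟨?_, ?_, h5, h6⟩
            · rw [← lt_sub_iff_add_lt]
              exact max_lt (by linarith) (by linarith)
            · exact lt_min (by linarith) (by linarith))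
        refine h5.trans (le_of_eq ?_)
        ring
    push_cast at key
    have hX : 0 ≤ (1 + P) * disT 1 T r u S := by positivity
    have h1 : 0 ≤ CW * ((1 + P) * disT 1 T r u S) := by positivity
    have h2 : 0 ≤ CS * ((1 + P) * disT 1 T r u S) := by positivity
    calc (S.card : ℝ) * r ≤ CF * (1 + P) * (5 * disT 1 T r u S) := key
      _ = (CF * 5) * ((1 + P) * disT 1 T r u S) := by ring
      _ ≤ _ := by
        rw [add_mul, add_mul]
        linarith

end Pool.Agent.Y8.FB
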