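import Pool.Agent.Y8.FB.Win

/-!
The slices of the moving neighbourhood (helper8).
-/

set_option autoImplicit false

open MeasureTheory Set Metric
open scoped ContDiff NNReal ENNReal

namespace Pool.Agent.Y8.FB

open H459R3.NS W221.NS Pool.Agent.Y8 Pool.Agent.Y590.NS

/-- the velocity of a particle is bounded at all times -/
lemma fluid_speed {T E D : ℝ} {G : Set ℝ} {u : ℝ → V → V} {p : ℝ → V → ℝ}
    (h : Turb 1 T E D G u p) {r B : ℝ} (hB : ∀ t ∈ G, ∀ x, ‖mo r (u t) x‖ ≤ B) {X : ℝ → V}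
    (hX : Fluid T r G u X) {s t : ℝ} (hs : s ∈ Ioo 0 T) (ht : t ∈ Ioo 0 T) :
    ‖X t - X s‖ ≤ B * |t - s| := by
  have hT0 : 0 < T := hs.1.trans hs.2
  have hc : ContinuousOn (deriv X) (Ioo 0 T) :=
    hX.diff.continuousOn_deriv_of_isOpen isOpen_Ioo le_rfl
  have hb : ∀ τ ∈ Ioo 0 T, ‖deriv X τ‖ ≤ B := by
    intro τ hτ
    by_contra hcon
    rw [not_le] at hcon
    have h1 : ContinuousAt (fun σ => ‖deriv X σ‖) τ :=
      (hc.continuousAt (isOpen_Ioo.mem_nhds hτ)).norm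
    have h2 : ∀ᶠ σ in nhds τ, B < ‖deriv X σ‖ := h1.eventually (lt_mem_nhds hcon)
    have h3 : τ ∈ closure (Ioo 0 T ∩ G) := dense_G hT0 h.fullG ⟨hτ.1.le, hτ.2.le⟩
    obtain ⟨σ, hσ, hσ2⟩ := (mem_closure_iff_frequently.1 h3 |>.and_eventually h2).exists
    rw [hX.vel σ hσ.2] at hσ2
    exact absurd hσ2 (not_lt.2 (hB σ hσ.2 _))
  have h1 := Convex.norm_image_sub_le_of_norm_hasDerivWithin_le (f := X)
    (f' := deriv X) (s := Ioo 0 T) (C := B)
    (fun τ hτ => (((hX.diff.differentiableOn one_ne_zero) τ hτ).differentiableAt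
      (isOpen_Ioo.mem_nhds hτ)).hasDerivAt.hasDerivWithinAt) hb (convex_Ioo 0 T) hs ht
  rwa [Real.norm_eq_abs] at h1

lemma cube_norm {x : V} (hx : x ∈ cube) : ‖x‖ ≤ 1 := by
  rw [pi_norm_le_iff_of_nonneg zero_le_one]
  intro j
  have h7 := hx.1 j
  have h8 := hx.2 j
  rw [Real.norm_eq_abs, abs_le]
  simp only [Pi.zero_apply, Pi.one_apply] at h7 h8
  exact ⟨by linarith, h8⟩

/-- the moving neighbourhood is open in space-time -/
lemma nbh_joint {ν T r : ℝ} {G : Set ℝ} {u : ℝ → V → V} (hG : IsOpen G) (hGT : G ⊆ Ioo 0 T)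
    (S : Finset (ℝ × V)) : IsOpen {q : ℝ × V | q.1 ∈ G ∧ q.2 ∈ Nbh ν T r G u S q.1} := by
  have e : {q : ℝ × V | q.1 ∈ G ∧ q.2 ∈ Nbh ν T r G u S q.1} =
      ⋃ z ∈ S, ⋃ X ∈ {X : ℝ → V | Fluid T r G u X ∧ ‖X z.1 - z.2‖ < r / 4},
        {q : ℝ × V | q.1 ∈ G ∧ (ν * |q.1 - z.1| < r ^ 2 ∧ ‖X q.1 - q.2‖ < 8 * r)} := by
    ext q
    simp only [mem_iUnion, exists_prop]
    constructor
    · rintro ⟨h1, z, hz, h2, X, hX, h3, h4⟩
      exact ⟨z, hz, X, ⟨hX, h3⟩, h1, h2, h4⟩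
    · rintro ⟨z, hz, X, ⟨hX, h3⟩, h1, h2, h4⟩
      exact ⟨h1, z, hz, h2, X, hX, h3, h4⟩
  rw [e]
  refine isOpen_biUnion fun z _ => isOpen_biUnion fun X hX => ?_
  have hO : IsOpen (G ×ˢ (univ : Set V)) := hG.prod isOpen_univ
  have h1 : ContinuousOn (fun q : ℝ × V => X q.1) (G ×ˢ (univ : Set V)) :=
    hX.1.diff.continuousOn.comp continuousOn_fst fun q hq => hGT hq.1
  have h2 : ContinuousOn (fun q : ℝ × V => ‖X q.1 - q.2‖) (G ×ˢ (univ : Set V)) :=
    (h1.sub continuousOn_snd).norm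
  have h3 : ContinuousOn (fun q : ℝ × V => ν * |q.1 - z.1|) (G ×ˢ (univ : Set V)) := by
    fun_prop
  have h4 := (h3.prodMk h2).isOpen_inter_preimage hO
    ((isOpen_Iio (a := r ^ 2)).prod (isOpen_Iio (a := 8 * r)))
  convert h4 using 1
  ext q
  constructor
  · rintro ⟨ha, hb, hc⟩
    exact ⟨⟨ha, mem_univ _⟩, hb, hc⟩
  · rintro ⟨⟨ha, _⟩, hb, hc⟩
    exact ⟨ha, hb, hc⟩

theorem t_SLI : S_SLI := by
  obtain ⟨K, hK, hmo⟩ := mo_bd
  obtain ⟨C, hC, hper⟩ := per_ball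
  refine ⟨C * (K + 11) ^ 3, 1, by positivity, one_pos, ?_⟩
  intro T E D G u p h r hr hrE S hS
  have hE2 : 0 ≤ E ^ 2 := sq_nonneg E
  have hr1 : r ≤ 1 := by nlinarith [mul_nonneg hE2 hr.le]
  refine ⟨?_, ?_, ?_⟩
  · intro t ht
    have hsub : Nbh 1 T r G u S t ⊆ ball (0 : V) (K + 10) := by
      rintro x ⟨z, hz, h1, X, hX, h2, h3⟩
      have htT := h.subG ht
      have hzT : z.1 ∈ Ioo 0 T := ⟨(hS z hz).1, (hS z hz).2.1⟩
      have h4 := fluid_speed h (fun τ hτ x => hmo E (u τ) (h.spv hτ) (h.energy_le τ hτ) r x hr hr1)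
        hX hzT htT
      rw [one_mul] at h1
      have hrs : √(r ^ 3) = r * √r := by
        rw [show r ^ 3 = r ^ 2 * r by ring, Real.sqrt_mul (by positivity), Real.sqrt_sq hr.le]
      have hsr : 0 < √r := Real.sqrt_pos.2 hr
      have hEr : |E| * √r ≤ 1 := by
        rw [← abs_of_pos hsr, ← abs_mul, abs_le_one_iff_mul_self_le_one]
        have : E * √r * (E * √r) = E ^ 2 * (√r) ^ 2 := by ring
        rw [this, Real.sq_sqrt hr.le]
        nlinarith
      have h5 : K * |E| / √(r ^ 3) * |t - z.1| ≤ K := by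
        calc K * |E| / √(r ^ 3) * |t - z.1| ≤ K * |E| / √(r ^ 3) * r ^ 2 := by
              gcongr
          _ = K * (|E| * √r) := by
              rw [hrs]
              have : r ^ 2 = r * (√r * √r) := by rw [Real.mul_self_sqrt hr.le]; ring
              rw [this]
              field_simp
          _ ≤ K * 1 := by gcongr
          _ = K := mul_one K
      rw [mem_ball, dist_zero_right]
      have h6 := cube_norm (hS z hz).2.2
      have e : x = (x - X t) + (X t - X z.1) + (X z.1 - z.2) + z.2 := by abel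
      have h7 : ‖x - X t‖ < 8 * r := by rw [norm_sub_rev]; exact h3
      calc ‖x‖ = ‖(x - X t) + (X t - X z.1) + (X z.1 - z.2) + z.2‖ := by rw [← e]
        _ ≤ ‖x - X t‖ + ‖X t - X z.1‖ + ‖X z.1 - z.2‖ + ‖z.2‖ := by
          refine (norm_add_le _ _).trans (add_le_add_left ?_ _)
          refine (norm_add_le _ _).trans (add_le_add_left ?_ _)
          exact norm_add_le _ _
        _ < K + 10 := by linarith
    refine (lintegral_mono_set hsub).trans ?_
    refine (hper (gsq (u t)) (gsq_sm (h.spv ht).1).continuous (gsq_per (h.spv ht).2)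
      (gsq_nn (u t)) (K + 10) (by positivity)).trans ?_
    rw [← enst_eq (h.spv ht).1]
    refine ENNReal.ofReal_le_ofReal (le_of_eq ?_)
    ring
  · intro t ht htG
    rw [eq_empty_iff_forall_notMem]
    rintro x ⟨z, hz, h1, -⟩
    exact ht ⟨h.subG htG, z, hz, h1.trans_le (by nlinarith [sq_nonneg r])⟩
  · have hS' : IsOpen ({w : (ℝ × V) × V | w.1.1 ∈ G ∧ w.2 ∈ Nbh 1 T r G u S w.1.1}) := by
      have h1 := nbh_joint (ν := 1) (T := T) (r := r) (u := u) h.openG h.subG S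
      have h2 : Continuous (fun w : (ℝ × V) × V => ((w.1.1, w.2) : ℝ × V)) := by fun_prop
      exact h1.preimage h2
    have h3 := meas_gen (S := {w : (ℝ × V) × V | w.1.1 ∈ G ∧ w.2 ∈ Nbh 1 T r G u S w.1.1})
      h.openG h.smooth_u hS'.measurableSet fun w hw => hw.1
    have h4 : Measurable (fun t : ℝ => ((t, (0 : V)) : ℝ × V)) := by fun_prop
    convert h3.comp h4 using 1
    funext t
    simp only [Function.comp]
    by_cases ht : t ∈ G
    · rw [indicator_of_mem ht, ← lintegral_indicator (nbh_open 1 T r G u S t).measurableSet]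
      refine lintegral_congr fun x => ?_
      by_cases hx : x ∈ Nbh 1 T r G u S t
      · rw [indicator_of_mem hx, indicator_of_mem (show ((t, (0 : V)), x) ∈
          {w : (ℝ × V) × V | w.1.1 ∈ G ∧ w.2 ∈ Nbh 1 T r G u S w.1.1} from ⟨ht, hx⟩)]
      · rw [indicator_of_notMem hx, indicator_of_notMem (show ((t, (0 : V)), x) ∉
          {w : (ℝ × V) × V | w.1.1 ∈ G ∧ w.2 ∈ Nbh 1 T r G u S w.1.1} from fun hc => hx hc.2)]
    · rw [indicator_of_notMem ht]
      symm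
      have : ∀ x, ({w : (ℝ × V) × V | w.1.1 ∈ G ∧ w.2 ∈ Nbh 1 T r G u S w.1.1}).indicator
        (fun w : (ℝ × V) × V => ENNReal.ofReal (gsq (u w.1.1) w.2)) ((t, (0 : V)), x) = 0 :=
        fun x => indicator_of_notMem (fun hc => ht hc.1) _
      simp [this]

end Pool.Agent.Y8.FB
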