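import Pool.Agent.Y8.Asm3

/-!
Counting singular points in the parabolic metric which moves with the fluid (helper8).
-/

set_option autoImplicit false

open MeasureTheory Set Metric
open scoped ContDiff NNReal ENNReal

namespace Pool.Agent.Y8.FB

open H459R3.NS W221.NS Pool.Agent.Y8

/-- A particle of the fluid at the scale `r`: a path which is continuously differentiable on
`(0, T)`, and whose velocity at the times in `G` is the velocity `u` averaged over the ball of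
radius `r` around it. -/
structure Fluid (T r : ℝ) (G : Set ℝ) (u : ℝ → V → V) (X : ℝ → V) : Prop where
  diff : ContDiffOn ℝ 1 X (Ioo 0 T)
  vel : ∀ t ∈ G, deriv X t = mo r (u t) (X t)

/-- No particle of the fluid passes two different points of `S` at distances less than `r / 4` and
at times `t, t'` with `ν |t - t'| < r²`. -/
def MovSep (ν T r : ℝ) (G : Set ℝ) (u : ℝ → V → V) (S : Finset (ℝ × V)) : Prop :=
  ∀ z ∈ S, ∀ w ∈ S, z ≠ w → ν * |z.1 - w.1| < r ^ 2 → ∀ X : ℝ → V, Fluid T r G u X →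
    ‖X z.1 - z.2‖ < r / 4 → r / 4 ≤ ‖X w.1 - w.2‖

/-- The neighbourhood of `S` in the metric which moves with the fluid, at the time `t`: the points
at distance less than `8 r` from a particle of the fluid which passes a point of `S`, at distance
less than `r / 4` and at a time `t'` with `ν |t - t'| < r²`. -/
def Nbh (ν T r : ℝ) (G : Set ℝ) (u : ℝ → V → V) (S : Finset (ℝ × V)) (t : ℝ) : Set V :=
  {x | ∃ z ∈ S, ν * |t - z.1| < r ^ 2 ∧ ∃ X : ℝ → V, Fluid T r G u X ∧ ‖X z.1 - z.2‖ < r / 4 ∧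
    ‖X t - x‖ < 8 * r}

/-- The dissipation in the moving neighbourhood of `S`. -/
noncomputable def disN (ν T r : ℝ) (G : Set ℝ) (u : ℝ → V → V) (S : Finset (ℝ × V)) : ℝ :=
  ∫ t in Ioo 0 T, ∫ x in Nbh ν T r G u S t, gsq (u t) x

/-- The times near those of `S`. -/
def near (ν T r : ℝ) (S : Finset (ℝ × V)) : Set ℝ :=
  {t | t ∈ Ioo 0 T ∧ ∃ z ∈ S, ν * |t - z.1| < 3 * r ^ 2}

/-- The dissipation at the times near those of `S`. -/
noncomputable def disT (ν T r : ℝ) (u : ℝ → V → V) (S : Finset (ℝ × V)) : ℝ :=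
  ∫ t in near ν T r S, enstrophy (u t)

/-- The count in moving frames, viscosity one: one window in time. -/
def S_WIN : Prop := ∃ C : ℝ, 0 < C ∧
  ∀ (T E D : ℝ) (G : Set ℝ) (u : ℝ → V → V) (p : ℝ → V → ℝ), Turb 1 T E D G u p →
    ∀ r s : ℝ, 0 < r → r ≤ 1 → r ^ 2 < s → s < T → ∀ S S' : Finset (ℝ × V), S' ⊆ S →
      MovSep 1 T r G u S →
      (∀ z ∈ S', z.1 ∈ Ioo (s - r ^ 2 / 16) s ∧ SingPt G u z.1 z.2) →
        ENNReal.ofReal (S'.card * r) ≤ ENNReal.ofReal C *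
          ∫⁻ t in Ioo (s - r ^ 2) s ∩ G, ∫⁻ x in Nbh 1 T r G u S t, ENNReal.ofReal (gsq (u t) x)

/-- The slices of the moving neighbourhood. -/
def S_SLI : Prop := ∃ C δ₀ : ℝ, 0 < C ∧ 0 < δ₀ ∧
  ∀ (T E D : ℝ) (G : Set ℝ) (u : ℝ → V → V) (p : ℝ → V → ℝ), Turb 1 T E D G u p →
    ∀ r : ℝ, 0 < r → (1 + E ^ 2) * r ≤ δ₀ → ∀ S : Finset (ℝ × V),
      (∀ z ∈ S, 0 < z.1 ∧ z.1 < T ∧ z.2 ∈ cube) →
      (∀ t ∈ G, ∫⁻ x in Nbh 1 T r G u S t, ENNReal.ofReal (gsq (u t) x) ≤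
        ENNReal.ofReal (C * enstrophy (u t))) ∧
      (∀ t, t ∉ near 1 T r S → t ∈ G → Nbh 1 T r G u S t = ∅) ∧
      Measurable (fun t : ℝ => G.indicator
        (fun t => ∫⁻ x in Nbh 1 T r G u S t, ENNReal.ofReal (gsq (u t) x)) t)

/-- The count, viscosity one. -/
def S_FB1 : Prop := ∃ C δ₀ : ℝ, 0 < C ∧ 0 < δ₀ ∧
  ∀ (T E D : ℝ) (G : Set ℝ) (u : ℝ → V → V) (p : ℝ → V → ℝ), Turb 1 T E D G u p →
    ∀ r : ℝ, 0 < r → (1 + E ^ 2) * r ≤ δ₀ → ∀ S : Finset (ℝ × V),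
      (∀ z ∈ S, r ^ 2 < z.1 ∧ z.1 + r ^ 2 < T ∧ z.2 ∈ cube ∧ SingPt G u z.1 z.2) →
        (MovSep 1 T r G u S → S.card * r ≤ C * disN 1 T r G u S) ∧
        disN 1 T r G u S ≤ C * disT 1 T r u S ∧
        (Sep r S → S.card * r ≤ C * ((1 + (E ^ 2 / r) ^ (2 / 23 : ℝ)) * disT 1 T r u S))

/-- The count. -/
def S_FB : Prop := ∃ C δ₀ : ℝ, 0 < C ∧ 0 < δ₀ ∧
  ∀ (ν T E D : ℝ) (G : Set ℝ) (u : ℝ → V → V) (p : ℝ → V → ℝ), 0 < ν → Turb ν T E D G u p →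
    ∀ r : ℝ, 0 < r → (1 + (E / ν) ^ 2) * r ≤ δ₀ → ∀ S : Finset (ℝ × V),
      (∀ z ∈ S, r ^ 2 < ν * z.1 ∧ ν * z.1 + r ^ 2 < ν * T ∧ z.2 ∈ cube ∧ SingPt G u z.1 z.2) →
        (MovSep ν T r G u S → S.card * r ≤ C / ν * disN ν T r G u S) ∧
        disN ν T r G u S ≤ C * disT ν T r u S ∧
        (SepN ν r S → S.card * r ≤ C / ν * ((1 + ((E / ν) ^ 2 / r) ^ (2 / 23 : ℝ)) *
          disT ν T r u S))

end Pool.Agent.Y8.FB
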