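import Pool.Agent.Y8.FB.Stm
import Pool.Agent.Y46.NS.Slow
import Pool.Agent.Y574.NS.WMark3

/-!
The count in moving frames for one window in time (helper8).
-/

set_option autoImplicit false

open MeasureTheory Set Metric
open scoped ContDiff NNReal ENNReal

namespace Pool.Agent.Y8.FB

open H459R3.NS W221.NS Pool.Agent.Y8 Pool.Agent.Y590.NS
open Pool.Agent.Y46.NS (X_cont)

/-- a path is a particle of the fluid -/
lemma fluid_of_path {T E D : ℝ} {G : Set ℝ} {u : ℝ → V → V} {p : ℝ → V → ℝ}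
    (h : Turb 1 T E D G u p) {r B C : ℝ} {X Y : ℝ → V} (hP : FPath T r B C G u p X Y) :
    Fluid T r G u X := by
  have hYc : ContinuousOn Y (Ioo 0 T) := by
    have hKc : Continuous fun t => ∫ τ in (0 : ℝ)..t, K1 G u p τ :=
      intervalIntegral.continuous_primitive (fun a b => (K1_int h).intervalIntegrable) 0
    rw [Metric.continuousOn_iff]
    intro t ht ε hε
    obtain ⟨δ, hδ, h6⟩ := Metric.continuous_iff.1 hKc t (ε / (|C| + 1)) (by positivity)
    refine ⟨δ, hδ, fun s hs hst => ?_⟩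
    have h7 := h6 s hst
    have key : ∀ a ∈ Ioo 0 T, ∀ b ∈ Ioo 0 T, a ≤ b → ‖Y b - Y a‖ ≤
        (|C| + 1) * |(∫ τ in (0 : ℝ)..b, K1 G u p τ) - ∫ τ in (0 : ℝ)..a, K1 G u p τ| := by
      intro a ha b hb hab
      refine (hP.md a ha b hb hab).trans ?_
      rw [intervalIntegral.integral_interval_sub_left (K1_int h).intervalIntegrable
        (K1_int h).intervalIntegrable, intervalIntegral.integral_of_le hab,
        integral_Ioc_eq_integral_Ioo]
      have h0 : 0 ≤ ∫ τ in Ioo a b, K1 G u p τ := integral_nonneg fun τ => K1_nn G u p τ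
      rw [abs_of_nonneg h0]
      exact mul_le_mul_of_nonneg_right (by linarith [le_abs_self C]) h0
    rw [Real.dist_eq] at h7
    rw [dist_eq_norm]
    have hC1 : 0 < |C| + 1 := by positivity
    rcases le_total s t with hle | hle
    · have h8 := key s hs t ht hle
      rw [norm_sub_rev, abs_sub_comm] at h8
      calc ‖Y s - Y t‖ ≤ _ := h8
        _ < (|C| + 1) * (ε / (|C| + 1)) := by gcongr
        _ = ε := by field_simp
    · have h8 := key t ht s hs hle
      calc ‖Y s - Y t‖ ≤ _ := h8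
        _ < (|C| + 1) * (ε / (|C| + 1)) := by gcongr
        _ = ε := by field_simp
  refine ⟨?_, fun t ht => ?_⟩
  · have e1 : (1 : WithTop ℕ∞) = 0 + 1 := by simp
    rw [e1, contDiffOn_succ_iff_deriv_of_isOpen isOpen_Ioo]
    refine ⟨fun t ht => (hP.hd t ht).differentiableAt.differentiableWithinAt, by simp, ?_⟩
    rw [contDiffOn_zero]
    exact hYc.congr fun t ht => (hP.hd t ht).deriv
  · rw [(hP.hd t (h.subG ht)).deriv, hP.ev t ht]

lemma nbh_open (ν T r : ℝ) (G : Set ℝ) (u : ℝ → V → V) (S : Finset (ℝ × V)) (t : ℝ) :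
    IsOpen (Nbh ν T r G u S t) := by
  rw [Metric.isOpen_iff]
  rintro x ⟨z, hz, h1, X, hX, h2, h3⟩
  refine ⟨8 * r - ‖X t - x‖, by linarith, fun y hy => ⟨z, hz, h1, X, hX, h2, ?_⟩⟩
  rw [mem_ball, dist_eq_norm, norm_sub_rev] at hy
  calc ‖X t - y‖ = ‖(X t - x) + (x - y)‖ := by rw [sub_add_sub_cancel]
    _ ≤ ‖X t - x‖ + ‖x - y‖ := norm_add_le _ _
    _ < 8 * r := by linarith

/-- Tonelli for the balls around the images of labels. -/
lemma slice_le {Xt : V → V} (hX : Continuous Xt) (hm : Measure.map Xt volume = volume)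
    {Q N : Set V} (hQ : MeasurableSet Q) (hN : MeasurableSet N) {ρ : ℝ} (hρ : 0 < ρ)
    (hQN : ∀ y ∈ Q, ∀ x, dist x (Xt y) < ρ → x ∈ N) {f : V → ℝ≥0∞} (hf : Measurable f) :
    ∫⁻ y in Q, ∫⁻ x in ball (Xt y) ρ, f x ≤
      ENNReal.ofReal ((2 * ρ) ^ 3) * ∫⁻ x in N, f x := by
  have hP : MeasurableSet {q : V × V | q.1 ∈ Q ∧ dist q.2 (Xt q.1) < ρ} :=
    (hQ.preimage measurable_fst).inter
      (measurableSet_lt (measurable_snd.dist (hX.measurable.comp measurable_fst))
        measurable_const)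
  set P : Set (V × V) := {q : V × V | q.1 ∈ Q ∧ dist q.2 (Xt q.1) < ρ} with hPd
  have hgm : Measurable (P.indicator (fun q : V × V => f q.2)) :=
    (hf.comp measurable_snd).indicator hP
  have e1 : ∫⁻ y in Q, ∫⁻ x in ball (Xt y) ρ, f x =
      ∫⁻ y, ∫⁻ x, P.indicator (fun q : V × V => f q.2) (y, x) := by
    rw [← lintegral_indicator hQ]
    refine lintegral_congr fun y => ?_
    by_cases hy : y ∈ Q
    · rw [indicator_of_mem hy, ← lintegral_indicator measurableSet_ball]
      refine lintegral_congr fun x => ?_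
      by_cases hx : dist x (Xt y) < ρ
      · rw [indicator_of_mem (show x ∈ ball (Xt y) ρ from hx),
          indicator_of_mem (show (y, x) ∈ P from ⟨hy, hx⟩)]
      · rw [indicator_of_notMem (show x ∉ ball (Xt y) ρ from hx),
          indicator_of_notMem (show (y, x) ∉ P from fun hc => hx hc.2)]
    · rw [indicator_of_notMem hy]
      symm
      rw [lintegral_congr (g := fun _ => (0 : ℝ≥0∞)) fun x =>
        indicator_of_notMem (fun hc => hy hc.1) _]
      simp
  rw [e1, lintegral_lintegral_swap (f := fun y x => P.indicator (fun q : V × V => f q.2) (y, x))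
    hgm.aemeasurable, ← lintegral_const_mul' _ _ ENNReal.ofReal_ne_top,
    ← lintegral_indicator hN]
  refine lintegral_mono fun x => ?_
  by_cases hx : x ∈ N
  · rw [indicator_of_mem hx]
    calc ∫⁻ y, P.indicator (fun q : V × V => f q.2) (y, x)
        ≤ ∫⁻ y, (Xt ⁻¹' ball x ρ).indicator (fun _ => f x) y := by
          refine lintegral_mono fun y => ?_
          by_cases hy : (y, x) ∈ P
          · rw [indicator_of_mem hy, indicator_of_mem]
            show Xt y ∈ ball x ρ
            rw [mem_ball, dist_comm]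
            exact hy.2
          · rw [indicator_of_notMem hy]
            exact zero_le
      _ = f x * volume (Xt ⁻¹' ball x ρ) := by
          rw [lintegral_indicator (measurableSet_ball.preimage hX.measurable), setLIntegral_const]
      _ = ENNReal.ofReal ((2 * ρ) ^ 3) * f x := by
          rw [← Measure.map_apply hX.measurable measurableSet_ball, hm, vol_ball _ hρ, mul_comm]
  · rw [indicator_of_notMem hx]
    refine le_of_eq ?_
    rw [lintegral_congr (g := fun _ => (0 : ℝ≥0∞)) fun y =>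
      indicator_of_notMem (fun hc : (y, x) ∈ P => hx (hQN y hc.1 x hc.2)) _]
    simp

theorem t_WIN (hcrit : S_CRIT3) (hwfl : S_WFL) : S_WIN := by
  obtain ⟨ε, hε, hcrit⟩ := hcrit
  obtain ⟨K, hK, hwfl⟩ := hwfl
  refine ⟨32768 / ε, by positivity, ?_⟩
  intro T E D G u p h r s hr hr1 hs1 hs2 S S' hSS hMS hS
  have hr2 : 0 < r ^ 2 := by positivity
  have hsT : s ∈ Ioo 0 T := ⟨by linarith, hs2⟩
  obtain ⟨C', hC', hwfl⟩ := hwfl E r hr hr1
  obtain ⟨X, Y, hfl⟩ := hwfl T D G u p h s hsT
  have hsub : Ioo (s - r ^ 2) s ⊆ Ioo 0 T := fun t ht => ⟨by linarith [ht.1], by linarith [ht.2]⟩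
  have htT : ∀ z ∈ S', z.1 ∈ Ioo 0 T := by
    intro z hz
    have h1 := (hS z hz).1
    exact ⟨by linarith [h1.1], by linarith [h1.2]⟩
  -- the sets of labels
  set L : ℝ × V → Set V := fun z => (X z.1) ⁻¹' (ball z.2 (r / 4)) with hL
  have hLmem : ∀ z y, y ∈ L z ↔ ‖X z.1 y - z.2‖ < r / 4 := by
    intro z y
    rw [hL]
    simp only [mem_preimage, mem_ball, dist_eq_norm]
  have hLmeas : ∀ z ∈ S', MeasurableSet (L z) := fun z hz =>
    (X_cont hfl (htT z hz)).measurable measurableSet_ball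
  have hLvol : ∀ z ∈ S', volume (L z) = ENNReal.ofReal ((r / 2) ^ 3) := by
    intro z hz
    have h1 := Measure.map_apply (μ := (volume : Measure V))
      (X_cont hfl (htT z hz)).measurable (measurableSet_ball (x := z.2) (ε := r / 4))
    rw [hfl.meas z.1 (htT z hz)] at h1
    rw [hL]
    simp only
    rw [← h1, vol_ball _ (by positivity)]
    congr 2
    ring
  have hdisj : (S' : Set (ℝ × V)).PairwiseDisjoint L := by
    intro z hz w hw hzw
    have h2 : 1 * |z.1 - w.1| < r ^ 2 := by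
      have h3 := (hS z hz).1
      have h4 := (hS w hw).1
      rw [one_mul, abs_lt]
      constructor
      · linarith [h3.1, h3.2, h4.1, h4.2]
      · linarith [h3.1, h3.2, h4.1, h4.2]
    rw [Function.onFun, Set.disjoint_left]
    intro y hy hy'
    have h6 := (hLmem z y).1 hy
    have h7 := (hLmem w y).1 hy'
    have h8 := hMS z (hSS hz) w (hSS hw) hzw h2 (fun t => X t y)
      (fluid_of_path h (hfl.path y)) h6
    linarith
  set Q : Set V := ⋃ z ∈ S', L z with hQ
  have hQm : MeasurableSet Q := Finset.measurableSet_biUnion _ hLmeas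
  have hXc : ContinuousOn (fun z : ℝ × V => X z.1 z.2) (G ×ˢ univ) :=
    hfl.cont.mono (prod_mono h.subG subset_rfl)
  obtain ⟨g, hg⟩ : ∃ g : ℝ × V → ℝ≥0∞, g = fun q : ℝ × V =>
      G.indicator (fun t => ENNReal.ofReal (B2 (X t q.2) (8 * r) (u t))) q.1 := ⟨_, rfl⟩
  have hgm : Measurable g := by
    rw [hg]
    exact meas_B2 h.openG h.smooth_u hXc (8 * r)
  obtain ⟨Ψ, hΨ⟩ : ∃ Ψ : V → ℝ≥0∞, Ψ = fun y => ∫⁻ t in Ioo (s - r ^ 2) s, g (t, y) := ⟨_, rfl⟩
  have hΨm : Measurable Ψ := by
    rw [hΨ]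
    exact hgm.lintegral_prod_left'
  have haeG : ∀ᵐ τ ∂(volume.restrict (Ioo (s - r ^ 2) s)), τ ∈ G :=
    aeT h (by linarith) hs2.le
  have hB2nn : ∀ (a : V) (ρ : ℝ) (w : V → V), 0 ≤ B2 a ρ w := fun a ρ w =>
    integral_nonneg fun z => gsq_nn w z
  have hincl : ∀ y ∈ Q, ENNReal.ofReal (ε * r) ≤ Ψ y := by
    intro y hy
    rw [hQ, mem_iUnion₂] at hy
    obtain ⟨z, hz, hyz⟩ := hy
    have hye : ε * r ≤ ∫ t in Ioo (s - r ^ 2) s, B2 (X t y) (8 * r) (u t) := by
      refine hcrit T E D G u p h r s hr hr1 hs1 hs2 (fun t => X t y) (fun t => Y t y) _ C'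
        (hfl.path y) z.1 (hS z hz).1 z.2 ?_ (hS z hz).2
      rw [mem_ball, dist_eq_norm, norm_sub_rev]
      exact (hLmem z y).1 hyz
    have hint : IntegrableOn (fun t => B2 (X t y) (8 * r) (u t)) (Ioo (s - r ^ 2) s) := by
      by_contra hc
      rw [integral_undef hc] at hye
      have : 0 < ε * r := by positivity
      linarith
    calc ENNReal.ofReal (ε * r) ≤
          ENNReal.ofReal (∫ t in Ioo (s - r ^ 2) s, B2 (X t y) (8 * r) (u t)) :=
          ENNReal.ofReal_le_ofReal hye
      _ = ∫⁻ t in Ioo (s - r ^ 2) s, ENNReal.ofReal (B2 (X t y) (8 * r) (u t)) :=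
          ofReal_integral_eq_lintegral_ofReal hint
            (ae_of_all _ fun t => hB2nn _ _ _)
      _ = Ψ y := by
          rw [hΨ]
          refine lintegral_congr_ae ?_
          filter_upwards [haeG] with t ht
          rw [hg]
          simp only [indicator_of_mem ht]
  -- the sum of the volumes
  have h1 : ENNReal.ofReal (ε * r) * volume Q ≤ ∫⁻ y in Q, Ψ y := by
    rw [← setLIntegral_const]
    exact setLIntegral_mono' hQm hincl
  have hvolQ : volume Q = ENNReal.ofReal (S'.card * (r / 2) ^ 3) := by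
    rw [hQ, measure_biUnion_finset hdisj hLmeas, Finset.sum_congr rfl hLvol, Finset.sum_const,
      nsmul_eq_mul, ENNReal.ofReal_mul (Nat.cast_nonneg _), ENNReal.ofReal_natCast]
  have hton : ∫⁻ y in Q, Ψ y =
      ∫⁻ t in Ioo (s - r ^ 2) s, ∫⁻ y in Q, g (t, y) := by
    rw [hΨ]
    exact lintegral_lintegral_swap (f := fun y t => g (t, y))
      (hgm.comp measurable_swap).aemeasurable
  have hslice : ∀ t ∈ Ioo (s - r ^ 2) s, ∫⁻ y in Q, g (t, y) ≤
      G.indicator (fun t => ENNReal.ofReal ((2 * (8 * r)) ^ 3) *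
        ∫⁻ x in Nbh 1 T r G u S t, ENNReal.ofReal (gsq (u t) x)) t := by
    intro t ht
    by_cases htG : t ∈ G
    · rw [indicator_of_mem htG]
      have e : ∀ y, g (t, y) = ∫⁻ x in ball (X t y) (8 * r), ENNReal.ofReal (gsq (u t) x) := by
        intro y
        rw [hg]
        simp only [indicator_of_mem htG]
        unfold B2
        rw [ofReal_integral_eq_lintegral_ofReal
          (ballint (gsq_sm (h.spv htG).1).continuous _ _) (ae_of_all _ fun z => gsq_nn _ z)]
      simp_rw [e]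
      refine slice_le (X_cont hfl (hsub ht)) (hfl.meas t (hsub ht)) hQm
        (nbh_open 1 T r G u S t).measurableSet (by positivity) ?_
        (gsq_sm (h.spv htG).1).continuous.measurable.ennreal_ofReal
      intro y hy x hx
      rw [hQ, mem_iUnion₂] at hy
      obtain ⟨z, hz, hyz⟩ := hy
      refine ⟨z, hSS hz, ?_, fun t => X t y, fluid_of_path h (hfl.path y), (hLmem z y).1 hyz, ?_⟩
      · have h3 := (hS z hz).1
        rw [one_mul, abs_lt]
        constructor
        · linarith [h3.1, h3.2, ht.1, ht.2]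
        · linarith [h3.1, h3.2, ht.1, ht.2]
      · rw [dist_eq_norm, norm_sub_rev] at hx
        exact hx
    · rw [indicator_of_notMem htG]
      refine le_of_eq ?_
      have e : ∀ y, g (t, y) = 0 := by
        intro y
        rw [hg]
        simp only [indicator_of_notMem htG]
      simp [e]
  have h2 : ∫⁻ t in Ioo (s - r ^ 2) s, ∫⁻ y in Q, g (t, y) ≤
      ENNReal.ofReal ((2 * (8 * r)) ^ 3) *
        ∫⁻ t in Ioo (s - r ^ 2) s ∩ G, ∫⁻ x in Nbh 1 T r G u S t, ENNReal.ofReal (gsq (u t) x) := by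
    refine (setLIntegral_mono' measurableSet_Ioo hslice).trans (le_of_eq ?_)
    rw [setLIntegral_indicator h.openG.measurableSet, inter_comm,
      lintegral_const_mul' _ _ ENNReal.ofReal_ne_top]
  have h3 := h1.trans (hton.le.trans h2)
  rw [hvolQ] at h3
  set I := ∫⁻ t in Ioo (s - r ^ 2) s ∩ G, ∫⁻ x in Nbh 1 T r G u S t,
    ENNReal.ofReal (gsq (u t) x) with hI
  have e1 : ENNReal.ofReal (ε * r) * ENNReal.ofReal (S'.card * (r / 2) ^ 3) =
      ENNReal.ofReal (S'.card * r) * ENNReal.ofReal (ε * (r / 2) ^ 3) := by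
    rw [← ENNReal.ofReal_mul (by positivity), ← ENNReal.ofReal_mul (by positivity)]
    congr 1
    ring
  have e2 : ENNReal.ofReal ((2 * (8 * r)) ^ 3) =
      ENNReal.ofReal (32768 / ε) * ENNReal.ofReal (ε * (r / 2) ^ 3) := by
    rw [← ENNReal.ofReal_mul (by positivity)]
    congr 1
    field_simp
    norm_num
  rw [e1, e2] at h3
  have h4 : ENNReal.ofReal (ε * (r / 2) ^ 3) ≠ 0 := by
    rw [Ne, ENNReal.ofReal_eq_zero, not_le]
    positivity
  have h5 : ENNReal.ofReal (S'.card * r) * ENNReal.ofReal (ε * (r / 2) ^ 3) ≤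
      (ENNReal.ofReal (32768 / ε) * I) * ENNReal.ofReal (ε * (r / 2) ^ 3) := by
    refine h3.trans (le_of_eq ?_)
    ring
  exact (ENNReal.mul_le_mul_iff_left h4 ENNReal.ofReal_ne_top).1 h5

end Pool.Agent.Y8.FB
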